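import Pool.Agent.Lib.MP_226ef1_lc.U.Tools

/-!
# Module LONG: long words depend only on content and multiplicities modulo two
-/

set_option autoImplicit false

namespace Pool.Agent.Lib.MP_226ef1_lc.U.H55

open Pool.Agent.Lib.MP_226ef1_lc.U

universe u

theorem mem_flatMap_congr {α : Type u} {σ : α → List ℕ} {w w' : List α}
    (h : ∀ t, t ∈ w ↔ t ∈ w') (c : ℕ) : c ∈ w.flatMap σ ↔ c ∈ w'.flatMap σ := by
  simp only [List.mem_flatMap, h]

/-- the basic case: few letters -/
theorem few (hF : FamWfStatement) {J : TS} (hJ : J.WF) {T : Type u} [Semigroup T]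
    (hT : Loc J (J.L + 1) T) {w w' : List T} (Y : Finset T) (hY : Y.card ≤ J.L + 1)
    (hwY : ∀ t ∈ w, t ∈ Y) (hw : J.L < w.length) (hw' : J.L < w'.length)
    (hc : ∀ t, t ∈ w ↔ t ∈ w') (hp : ∀ t, cnt t w % 2 = cnt t w' % 2) : prd w = prd w' := by
  have hne : w ≠ [] := by rintro rfl; simp at hw
  have hne' : w' ≠ [] := by rintro rfl; simp at hw'
  obtain ⟨τ, hτ, σ, hσ, h⟩ := hT Y hY w' hne' (fun t ht => hwY t ((hc t).2 ht))
  obtain ⟨_, hlen, _⟩ := hF J hJ τ hτ
  have h1 := h w hne (fun g hg => hwY g hg) ?_
  · simpa using h1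
  · by_cases h0 : 0 ∈ w.flatMap σ
    · rw [Tm.nf_zero h0, Tm.nf_zero ((mem_flatMap_congr hc 0).1 h0)]
    · have h0' : 0 ∉ w'.flatMap σ := fun h' => h0 ((mem_flatMap_congr hc 0).2 h')
      refine Tm.nf_eq_of_long h0 h0' ?_ ?_ (fun c _ => mem_flatMap_congr hc c)
        (sum_flatMap_congr σ hp)
      · refine Tm.not_free_of_len ?_
        rw [hlen]
        exact hw.trans_le (length_le_flatMap fun a _ => hσ a)
      · refine Tm.not_free_of_len ?_
        rw [hlen]
        exact hw'.trans_le (length_le_flatMap fun a _ => hσ a)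

/-- a window of length `L + 1` -/
theorem window (hF : FamWfStatement) {J : TS} (hJ : J.WF) {T : Type u} [Semigroup T]
    (hT : Loc J (J.L + 1) T) {q q' : List T} (hq : q.length = J.L + 1) (hq' : J.L < q'.length)
    (hc : ∀ t, t ∈ q ↔ t ∈ q') (hp : ∀ t, cnt t q % 2 = cnt t q' % 2) : prd q = prd q' := by
  classical
  exact few hF hJ hT q.toFinset ((List.toFinset_card_le q).trans hq.le)
    (fun t ht => by simpa using ht) (by omega) hq' hc hp

theorem swap (hF : FamWfStatement) {J : TS} (hJ : J.WF) {T : Type u} [Semigroup T]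
    (hT : Loc J (J.L + 1) T) (a b : List T) (x y : T) (h : J.L < (a ++ x :: y :: b).length) :
    prd (a ++ x :: y :: b) = prd (a ++ y :: x :: b) := by
  have hL : 24 ≤ J.L := by unfold TS.L; omega
  obtain ⟨a1, a2, b1, b2, rfl, rfl, hlen⟩ : ∃ a1 a2 b1 b2 : List T, a = a1 ++ a2 ∧ b = b1 ++ b2 ∧
      a2.length + 2 + b1.length = J.L + 1 := by
    simp only [List.length_append, List.length_cons] at h
    refine ⟨a.take (a.length - min a.length (J.L - 1)), a.drop (a.length - min a.length (J.L - 1)),
      b.take (J.L - 1 - min a.length (J.L - 1)), b.drop (J.L - 1 - min a.length (J.L - 1)),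
      (List.take_append_drop _ _).symm, (List.take_append_drop _ _).symm, ?_⟩
    rw [List.length_drop, List.length_take]
    omega
  have hperm : (a2 ++ x :: y :: b1).Perm (a2 ++ y :: x :: b1) :=
    List.Perm.append_left a2 (List.Perm.swap y x b1)
  have h1 : prd (a2 ++ x :: y :: b1) = prd (a2 ++ y :: x :: b1) := by
    refine window hF hJ hT ?_ ?_ (fun t => hperm.mem_iff) (fun t => by rw [cnt_perm hperm])
    · simp only [List.length_append, List.length_cons]; omega
    · simp only [List.length_append, List.length_cons]; omega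
  have e1 : (a1 ++ a2) ++ x :: y :: (b1 ++ b2) = a1 ++ (a2 ++ x :: y :: b1) ++ b2 := by simp
  have e2 : (a1 ++ a2) ++ y :: x :: (b1 ++ b2) = a1 ++ (a2 ++ y :: x :: b1) ++ b2 := by simp
  rw [e1, e2, prd_append (a1 ++ (a2 ++ x :: y :: b1)) b2, prd_append a1 (a2 ++ x :: y :: b1), h1,
    ← prd_append, ← prd_append]

theorem perm_aux (hF : FamWfStatement) {J : TS} (hJ : J.WF) {T : Type u} [Semigroup T]
    (hT : Loc J (J.L + 1) T) {w w' : List T} (h : w.Perm w') :
    ∀ a b : List T, J.L < (a ++ w ++ b).length → prd (a ++ w ++ b) = prd (a ++ w' ++ b) := by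
  induction h with
  | nil => intros; rfl
  | cons x _ ih =>
    intro a b hl
    have h1 := ih (a ++ [x]) b (by simpa using hl)
    simpa using h1
  | swap x y l =>
    intro a b hl
    have h1 := swap hF hJ hT a (l ++ b) y x (by simpa using hl)
    simpa using h1
  | trans h1 h2 ih1 ih2 =>
    intro a b hl
    rw [ih1 a b hl]
    refine ih2 a b ?_
    rw [List.length_append, List.length_append] at hl ⊢
    rw [← h1.length_eq]
    exact hl

theorem perm (hF : FamWfStatement) {J : TS} (hJ : J.WF) {T : Type u} [Semigroup T]
    (hT : Loc J (J.L + 1) T) {w w' : List T} (h : w.Perm w') (hl : J.L < w.length) :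
    prd w = prd w' := by
  have := perm_aux hF hJ hT h [] [] (by simpa using hl)
  simpa using this

theorem add_two (hF : FamWfStatement) {J : TS} (hJ : J.WF) {T : Type u} [Semigroup T]
    (hT : Loc J (J.L + 1) T) {w : List T} (hl : J.L < w.length) {g : T} (hg : g ∈ w) :
    prd (g :: g :: w) = prd w := by
  obtain ⟨s, t, rfl⟩ := List.append_of_mem hg
  set w1 := s ++ t with hw1
  have hperm : (s ++ g :: t).Perm (g :: w1) := List.perm_middle
  have hl1 : J.L ≤ w1.length := by
    have := hperm.length_eq
    rw [List.length_cons] at this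
    omega
  rw [perm hF hJ hT hperm hl, perm hF hJ hT ((hperm.cons g).cons g) (by simp at hl ⊢; omega)]
  have h1 : prd (g :: w1.take J.L) = prd (g :: g :: g :: w1.take J.L) := by
    refine window hF hJ hT ?_ ?_ ?_ ?_
    · rw [List.length_cons, List.length_take]; omega
    · simp only [List.length_cons, List.length_take]; omega
    · intro t; simp
    · intro t
      by_cases h : g = t
      · subst h; simp only [cnt_cons_self]; omega
      · rw [cnt_cons_ne h, cnt_cons_ne h, cnt_cons_ne h, cnt_cons_ne h]
  have e1 : g :: w1 = (g :: w1.take J.L) ++ w1.drop J.L := by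
    rw [List.cons_append, List.take_append_drop]
  have e2 : g :: g :: g :: w1 = (g :: g :: g :: w1.take J.L) ++ w1.drop J.L := by
    rw [List.cons_append, List.cons_append, List.cons_append, List.take_append_drop]
  rw [e2]
  conv_rhs => rw [e1]
  rw [prd_append (g :: g :: g :: w1.take J.L) _, prd_append (g :: w1.take J.L) _, h1]

theorem add_double (hF : FamWfStatement) {J : TS} (hJ : J.WF) {T : Type u} [Semigroup T]
    (hT : Loc J (J.L + 1) T) {w : List T} (hl : J.L < w.length) (e : List T)
    (he : ∀ t ∈ e, t ∈ w) : prd (e ++ e ++ w) = prd w := by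
  induction e with
  | nil => rfl
  | cons g e ih =>
    have ih' := ih fun t ht => he t (by simp [ht])
    have hperm : (g :: e ++ g :: e ++ w).Perm (g :: g :: (e ++ e ++ w)) := by
      rw [List.cons_append, List.cons_append]
      refine List.Perm.cons g ?_
      rw [List.append_assoc, List.cons_append]
      refine List.perm_middle.trans ?_
      rw [List.append_assoc]
    rw [perm hF hJ hT hperm (by simp only [List.length_append, List.length_cons]; omega),
      add_two hF hJ hT (by simp only [List.length_append]; omega)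
        (by simp [he g (by simp)]), ih']

/-- a word with even multiplicities is a double, up to order -/
theorem exists_half {α : Type u} : ∀ (n : ℕ) (v : List α), v.length ≤ n →
    (∀ a, cnt a v % 2 = 0) → ∃ e : List α, (e ++ e).Perm v := by
  classical
  intro n
  induction n with
  | zero =>
    intro v hv _
    have : v = [] := List.length_eq_zero_iff.1 (by omega)
    exact ⟨[], by simp [this]⟩
  | succ n ih =>
    intro v hv h
    rcases v with _ | ⟨a, v⟩
    · exact ⟨[], by simp⟩
    · have ha : a ∈ v := by
        rw [← cnt_pos_iff]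
        have := h a
        rw [cnt_cons_self] at this
        omega
      obtain ⟨s, t, rfl⟩ := List.append_of_mem ha
      have hperm : (a :: (s ++ a :: t)).Perm (a :: a :: (s ++ t)) :=
        List.Perm.cons a List.perm_middle
      obtain ⟨e, he⟩ := ih (s ++ t) (by simp at hv ⊢; omega) (fun b => by
        have h3 := h b
        rw [cnt_perm hperm] at h3
        by_cases hb : a = b
        · subst hb
          rw [cnt_cons_self, cnt_cons_self] at h3
          omega
        · rw [cnt_cons_ne hb, cnt_cons_ne hb] at h3
          exact h3)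
      refine ⟨a :: e, ?_⟩
      refine List.Perm.trans ?_ hperm.symm
      rw [List.cons_append]
      refine List.Perm.cons a ?_
      exact List.perm_middle.trans (he.cons a)

theorem long (hF : FamWfStatement) : LongStatement.{u} := by
  intro J hJ T _ hT w w' hw hw' hc hp
  obtain ⟨e, he⟩ := exists_half (w ++ w').length (w ++ w') le_rfl (fun a => by
    rw [cnt_append]
    have := hp a
    omega)
  have hew : ∀ t ∈ e, t ∈ w := by
    intro t ht
    have h1 : t ∈ w ++ w' := he.mem_iff.1 (by simp [ht])
    rcases List.mem_append.1 h1 with h2 | h2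
    · exact h2
    · exact (hc t).2 h2
  have h1 : prd (e ++ e ++ w) = prd w := add_double hF hJ hT hw e hew
  have h2 : prd (w ++ w ++ w') = prd w' := add_double hF hJ hT hw' w fun t ht => (hc t).1 ht
  have hperm : (e ++ e ++ w).Perm (w ++ w ++ w') := by
    refine (he.append_right w).trans ?_
    rw [List.append_assoc, List.append_assoc]
    exact List.Perm.append_left w List.perm_append_comm
  rw [← h1, ← h2]
  exact perm hF hJ hT hperm (by rw [List.length_append]; omega)

end Pool.Agent.Lib.MP_226ef1_lc.U.H55
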