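import Pool.Agent.Lib.MP_226ef1_lc.U.H55.Long

/-!
# Module STEP2: a generating set with at most five elements
-/

set_option autoImplicit false

namespace Pool.Agent.Lib.MP_226ef1_lc.U.H55

open Pool.Agent.Lib.MP_226ef1_lc.U

universe u v

theorem mem_dbl {α : Type u} (l : ℕ) (Y : Finset α) (t : α) : t ∈ dbl l Y ↔ t ∈ Y := by
  unfold dbl
  simp

theorem length_dbl {α : Type u} (l : ℕ) {Y : Finset α} (hY : Y.Nonempty) :
    l < (dbl l Y).length := by
  unfold dbl
  have h1 : 0 < Y.card := hY.card_pos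
  simp only [List.length_flatten, List.map_replicate, List.sum_replicate, List.length_append,
    Finset.length_toList, smul_eq_mul]
  nlinarith

theorem cnt_dbl {α : Type u} (l : ℕ) (Y : Finset α) (t : α) : cnt t (dbl l Y) % 2 = 0 := by
  unfold dbl
  induction l + 1 with
  | zero => simp
  | succ n ih =>
    rw [List.replicate_succ, List.flatten_cons, cnt_append, cnt_append]
    omega

theorem cnt_flatMap_even {α : Type u} {β : Type v} (d : α → List β) {w : List α}
    (h : ∀ a, cnt a w % 2 = 0) (t : β) : cnt t (w.flatMap d) % 2 = 0 := by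
  obtain ⟨e, he⟩ := exists_half w.length w le_rfl h
  rw [← cnt_perm (he.flatMap_right d), List.flatMap_append, cnt_append]
  omega

theorem prd_blocks {ι : Type} {T : Type u} [Semigroup T] (Z : ι → T) (d : ι → List T)
    (hd : ∀ i, prd (d i) = (Z i : WithOne T)) (w : List ι) :
    prd (w.map Z) = prd (w.flatMap d) := by
  induction w with
  | nil => rfl
  | cons i w ih => rw [List.map_cons, prd_cons, List.flatMap_cons, prd_append, ih, hd]

/-- the value of an even long word in the blocks -/
theorem prd_even {ι : Type} {l : ℕ} {T : Type u} [Semigroup T] (E : EFacts l T) (Z : ι → T)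
    (d : ι → List T) (hd : ∀ i, prd (d i) = (Z i : WithOne T)) (hne : ∀ i, d i ≠ [])
    (I : Finset ι) (hI : I.Nonempty) (Y : Finset T) (hY : ∀ t, t ∈ Y ↔ ∃ i ∈ I, t ∈ d i) :
    prd ((dbl l I).map Z) = ee l Y := by
  rw [prd_blocks Z d hd]
  refine E.eq Y _ ?_ ?_ ?_
  · exact (length_dbl l hI).trans_le (length_le_flatMap_gen hne)
  · intro t
    rw [List.mem_flatMap, hY]
    simp only [mem_dbl]
  · exact fun t => cnt_flatMap_even d (cnt_dbl l I) t
where
  length_le_flatMap_gen {ι : Type} {T : Type u} {d : ι → List T} (h : ∀ i, d i ≠ [])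
      {w : List ι} : w.length ≤ (w.flatMap d).length := by
    induction w with
    | nil => simp
    | cons a w ih =>
      have h2 : 0 < (d a).length := List.length_pos_iff.2 (h a)
      rw [List.flatMap_cons, List.length_append, List.length_cons]
      omega

/-- the main dichotomy: a family of at most six blocks whose union is `Y`; if every proper
nonempty subfamily has union different from `e`, contradiction -/
theorem key (hF : FamWfStatement) {J : TS} (hJ : J.WF) {T : Type u} [Semigroup T]
    (hT : Loc J (J.L + 1) T) (Z : Fin 6 → T) :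
    ∃ I : Finset (Fin 6), I.Nonempty ∧ I.card ≤ 5 ∧
      prd ((dbl J.L I).map Z) = prd ((dbl J.L (Finset.univ : Finset (Fin 6))).map Z) := by
  classical
  have hL : 24 ≤ J.L := by unfold TS.L; omega
  set u' := (dbl J.L (Finset.univ : Finset (Fin 6))).map Z with hu'
  have hlen : J.L < u'.length := by
    rw [hu', List.length_map]
    exact length_dbl J.L Finset.univ_nonempty
  have hne' : u' ≠ [] := by
    intro h; rw [h] at hlen; simp at hlen
  have hcard : (Finset.univ.image Z).card ≤ J.L + 1 := by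
    refine Finset.card_image_le.trans ?_
    rw [Finset.card_univ, Fintype.card_fin]
    omega
  obtain ⟨τ, hτ, σ, hσ, h⟩ := hT (Finset.univ.image Z) hcard u' hne' (by
    intro t ht
    rw [hu', List.mem_map] at ht
    obtain ⟨i, _, rfl⟩ := ht
    exact Finset.mem_image_of_mem Z (Finset.mem_univ i))
  obtain ⟨hwf, hτlen, _⟩ := hF J hJ τ hτ
  have hmem : ∀ (I : Finset (Fin 6)) (c : ℕ),
      c ∈ ((dbl J.L I).map Z).flatMap σ ↔ ∃ i ∈ I, c ∈ σ (Z i) := by
    intro I c
    simp only [List.mem_flatMap, List.mem_map, mem_dbl]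
    constructor
    · rintro ⟨_, ⟨i, hi, rfl⟩, hc⟩; exact ⟨i, hi, hc⟩
    · rintro ⟨i, hi, hc⟩; exact ⟨_, ⟨i, hi, rfl⟩, hc⟩
  have huse : ∀ I : Finset (Fin 6), I.Nonempty →
      τ.nf (((dbl J.L I).map Z).flatMap σ) = τ.nf (u'.flatMap σ) →
      prd ((dbl J.L I).map Z) = prd u' := by
    intro I hI hnf
    have h1 := h ((dbl J.L I).map Z) (by
      intro h0
      have := length_dbl J.L hI
      rw [← List.length_map (f := Z), h0] at this
      simp at this) (by
      intro t ht
      rw [List.mem_map] at ht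
      obtain ⟨i, _, rfl⟩ := ht
      simp) hnf
    rw [List.map_id' (dbl J.L I |>.map Z), List.map_id' u'] at h1
    exact h1
  by_cases h0 : ∃ i, 0 ∈ σ (Z i)
  · obtain ⟨i, hi⟩ := h0
    refine ⟨{i}, Finset.singleton_nonempty i, by simp, ?_⟩
    refine huse {i} (Finset.singleton_nonempty i) ?_
    rw [Tm.nf_zero ((hmem {i} 0).2 ⟨i, by simp, hi⟩),
      Tm.nf_zero ((hmem Finset.univ 0).2 ⟨i, Finset.mem_univ i, hi⟩)]
  · push Not at h0
    -- choose an index for every seed
    have hch : ∀ s : ℕ, ∃ i : Fin 6, (∃ j, s ∈ σ (Z j)) → s ∈ σ (Z i) := by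
      intro s
      by_cases hs : ∃ j, s ∈ σ (Z j)
      · obtain ⟨j, hj⟩ := hs
        exact ⟨j, fun _ => hj⟩
      · exact ⟨0, fun h => absurd h hs⟩
    choose f hf using hch
    have hI : (τ.seeds.toFinset.image f).Nonempty := by
      obtain ⟨s, hs⟩ := List.exists_mem_of_ne_nil _ hwf.seeds_ne
      exact ⟨f s, Finset.mem_image_of_mem f (by simpa using hs)⟩
    refine ⟨τ.seeds.toFinset.image f, hI, ?_, ?_⟩
    · exact (Finset.card_image_le.trans (List.toFinset_card_le _)).trans hwf.seeds_le
    · refine huse _ hI ?_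
      have hz : ∀ I : Finset (Fin 6), 0 ∉ ((dbl J.L I).map Z).flatMap σ := by
        intro I h1
        obtain ⟨i, _, hi⟩ := (hmem I 0).1 h1
        exact h0 i hi
      have hnf : ∀ I : Finset (Fin 6), I.Nonempty →
          ¬ τ.Free (((dbl J.L I).map Z).flatMap σ) := by
        intro I hI'
        refine Tm.not_free_of_len ?_
        rw [hτlen]
        refine (length_dbl J.L hI').trans_le ?_
        rw [← List.length_map (f := Z)]
        exact length_le_flatMap fun a _ => hσ a
      have hsum : ∀ I : Finset (Fin 6), (((dbl J.L I).map Z).flatMap σ).sum % 2 = 0 := by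
        intro I
        have e1 : ((dbl J.L I).map Z).flatMap σ = (dbl J.L I).flatMap (fun i => σ (Z i)) := by
          rw [List.flatMap_map]
        rw [e1]
        exact sum_flatMap_even _ (cnt_dbl J.L I)
      refine Tm.nf_eq_of_long (hz _) (hz Finset.univ) (hnf _ hI)
        (hnf Finset.univ Finset.univ_nonempty) ?_ ?_
      · intro s hs
        rw [hmem, hmem]
        constructor
        · rintro ⟨i, _, hi⟩; exact ⟨i, Finset.mem_univ i, hi⟩
        · rintro ⟨i, _, hi⟩
          exact ⟨f s, Finset.mem_image_of_mem f (by simpa using hs), hf s ⟨i, hi⟩⟩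
      · rw [hsum, hsum]

theorem step2 (hF : FamWfStatement) : Step2Statement.{u} := by
  classical
  intro J hJ T _ hT _ E G hG
  have hex : ∃ n, ∃ Y : Finset T, Gen J.L G Y ∧ Y.card = n := ⟨_, G, ⟨hG, subset_rfl, rfl⟩, rfl⟩
  obtain ⟨Y, hY, hYn⟩ := Nat.find_spec hex
  have hmin : ∀ Y', Gen J.L G Y' → Y.card ≤ Y'.card := by
    intro Y' hY'
    rw [hYn]
    exact Nat.find_le ⟨Y', hY', rfl⟩
  refine ⟨Y, hY, ?_⟩
  by_contra hcon
  push Not at hcon
  -- an injection of five elements
  obtain ⟨S, hSY, hS⟩ := Finset.exists_subset_card_eq (show 5 ≤ Y.card by omega)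
  set y : Fin 5 → T := fun i => (S.equivFinOfCardEq hS).symm i with hy
  have hyS : ∀ i, y i ∈ S := fun i => ((S.equivFinOfCardEq hS).symm i).2
  have hyinj : Function.Injective y := fun i j h =>
    (S.equivFinOfCardEq hS).symm.injective (Subtype.ext h)
  have hysurj : ∀ t ∈ S, ∃ i, y i = t := fun t ht =>
    ⟨S.equivFinOfCardEq hS ⟨t, ht⟩, by simp [hy]⟩
  set R := Y \ S with hR
  have hRne : R.Nonempty := by
    rw [← Finset.card_pos, hR, Finset.card_sdiff_of_subset hSY]
    omega
  obtain ⟨z, hz⟩ := E.ne_one R hRne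
  set Z : Fin 6 → T := Fin.snoc (α := fun _ => T) y z with hZ
  set d : Fin 6 → List T := Fin.snoc (α := fun _ => List T) (fun i => [y i]) (dbl J.L R) with hd
  have hZc : ∀ i : Fin 5, Z i.castSucc = y i := fun i => by simp [hZ]
  have hZl : Z (Fin.last 5) = z := by rw [hZ]; exact Fin.snoc_last (α := fun _ => T) z y
  have hdc : ∀ i : Fin 5, d i.castSucc = [y i] := fun i => by simp [hd]
  have hdl : d (Fin.last 5) = dbl J.L R := by
    rw [hd]; exact Fin.snoc_last (α := fun _ => List T) (dbl J.L R) (fun i => [y i])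
  have hprd : ∀ i, prd (d i) = (Z i : WithOne T) := by
    intro i
    refine Fin.lastCases ?_ (fun i => ?_) i
    · rw [hdl, hZl]; exact hz
    · rw [hdc, hZc, prd_singleton]
  have hne : ∀ i, d i ≠ [] := by
    intro i
    refine Fin.lastCases ?_ (fun i => ?_) i
    · rw [hdl]
      intro h0
      have := length_dbl J.L hRne
      rw [h0] at this
      simp at this
    · rw [hdc]; simp
  -- blocks
  have hsub : ∀ i t, t ∈ d i → t ∈ Y := by
    intro i
    refine Fin.lastCases ?_ (fun i => ?_) i
    · intro t ht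
      rw [hdl, mem_dbl] at ht
      exact (Finset.mem_sdiff.1 ht).1
    · intro t ht
      rw [hdc, List.mem_singleton] at ht
      rw [ht]
      exact hSY (hyS i)
  have hcov : ∀ t ∈ Y, ∃ i, t ∈ d i := by
    intro t ht
    by_cases htS : t ∈ S
    · obtain ⟨i, rfl⟩ := hysurj t htS
      exact ⟨i.castSucc, by rw [hdc]; simp⟩
    · exact ⟨Fin.last 5, by rw [hdl, mem_dbl]; exact Finset.mem_sdiff.2 ⟨ht, htS⟩⟩
  have hdisj : ∀ i j t, t ∈ d i → t ∈ d j → i = j := by
    intro i j
    refine Fin.lastCases ?_ (fun i => ?_) i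
    · refine Fin.lastCases ?_ (fun j => ?_) j
      · intros; rfl
      · intro t h1 h2
        rw [hdl, mem_dbl] at h1
        rw [hdc, List.mem_singleton] at h2
        exact absurd (h2 ▸ hyS j) (Finset.mem_sdiff.1 h1).2
    · refine Fin.lastCases ?_ (fun j => ?_) j
      · intro t h1 h2
        rw [hdl, mem_dbl] at h2
        rw [hdc, List.mem_singleton] at h1
        exact absurd (h1 ▸ hyS i) (Finset.mem_sdiff.1 h2).2
      · intro t h1 h2
        rw [hdc, List.mem_singleton] at h1 h2
        rw [hyinj (h1.symm.trans h2)]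
  obtain ⟨I, hI, hI5, hval⟩ := key hF hJ hT Z
  have h1 : prd ((dbl J.L (Finset.univ : Finset (Fin 6))).map Z) = ee J.L Y := by
    refine prd_even E Z d hprd hne Finset.univ Finset.univ_nonempty Y fun t => ?_
    constructor
    · intro ht
      obtain ⟨i, hi⟩ := hcov t ht
      exact ⟨i, Finset.mem_univ i, hi⟩
    · rintro ⟨i, _, hi⟩
      exact hsub i t hi
  set Y' : Finset T := Y.filter fun t => ∃ i ∈ I, t ∈ d i with hY'
  have h2 : prd ((dbl J.L I).map Z) = ee J.L Y' := by
    refine prd_even E Z d hprd hne I hI Y' fun t => ?_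
    rw [hY', Finset.mem_filter]
    constructor
    · rintro ⟨_, h⟩; exact h
    · rintro ⟨i, hi, ht⟩; exact ⟨hsub i t ht, i, hi, ht⟩
  have hgen : Gen J.L G Y' := by
    refine ⟨?_, (Finset.filter_subset _ _).trans hY.2.1, ?_⟩
    · obtain ⟨i, hi⟩ := hI
      obtain ⟨t, ht⟩ := List.exists_mem_of_ne_nil _ (hne i)
      exact ⟨t, Finset.mem_filter.2 ⟨hsub i t ht, i, hi, ht⟩⟩
    · rw [← h2, hval, h1]
      exact hY.2.2
  have hlt : Y'.card < Y.card := by
    obtain ⟨j, hj⟩ : ∃ j, j ∉ I := by
      by_contra hall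
      push Not at hall
      have : I = Finset.univ := Finset.eq_univ_iff_forall.2 hall
      rw [this, Finset.card_univ, Fintype.card_fin] at hI5
      omega
    obtain ⟨t, ht⟩ := List.exists_mem_of_ne_nil _ (hne j)
    refine Finset.card_lt_card (Finset.ssubset_iff_subset_ne.2 ⟨Finset.filter_subset _ _, ?_⟩)
    intro heq
    have h3 : t ∈ Y' := by rw [heq]; exact hsub j t ht
    obtain ⟨i, hi, hti⟩ := (Finset.mem_filter.1 h3).2
    exact hj (hdisj j i t ht hti ▸ hi)
  have := hmin Y' hgen
  omega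

end Pool.Agent.Lib.MP_226ef1_lc.U.H55
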